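import Pool.Agent.Helper86.Poly.Goals

set_option autoImplicit false

namespace Pool.Agent.Helper29.Poly

open MeasureTheory Set
open scoped Pointwise
open Pool.Agent.Helper86.Poly

lemma PkBV.setOf_gauge {κ : Type} [Fintype κ] (s : Set (κ → ℝ)) (hf : s.Finite)
    (h0 : (0 : κ → ℝ) ∈ interior (convexHull ℝ s)) :
    {x | gauge (convexHull ℝ s) x ≤ 1} = convexHull ℝ s := by
  have hcl : IsClosed (convexHull ℝ s) := (hf.isCompact_convexHull (𝕜 := ℝ)).isClosed
  ext x
  have h := gauge_le_one_iff_mem_closure (convex_convexHull ℝ s) (mem_interior_iff_mem_nhds.1 h0)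
    (x := x)
  rw [hcl.closure_eq] at h
  exact h

lemma PkBV.int_gauge (hX : G_X) {κ : Type} [Fintype κ] (s : Set (κ → ℝ)) (hf : s.Finite)
    (h0 : (0 : κ → ℝ) ∈ interior (convexHull ℝ s)) :
    ∫⁻ x, ENNReal.ofReal (Real.exp (-(gauge (convexHull ℝ s) x))) =
      ((Fintype.card κ).factorial : ENNReal) * volume (convexHull ℝ s) := by
  have hc : Continuous (gauge (convexHull ℝ s)) :=
    continuous_gauge (convex_convexHull ℝ s) (mem_interior_iff_mem_nhds.1 h0)
  have h := hX κ (gauge (convexHull ℝ s)) hc.measurable (fun x => gauge_nonneg x)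
    (fun t x ht => by
      have := gauge_smul_of_nonneg (s := convexHull ℝ s) ht.le x
      simpa using this)
  rw [h, PkBV.setOf_gauge s hf h0]

lemma PkBV.main (hX : G_X) (h1 : G_BV1) (h2 : G_BV2) (ι : Type) [Fintype ι] [DecidableEq ι]
    [Nonempty ι] (a : ℕ) (b : ι → ℕ)
    (c : ι → Fin a → ℝ) (s : (i : ι) → Fin (b i + 1) → Fin (b i) → ℝ)
    (hs : ∀ i, ∑ α, s i α = 0)
    (hi : ∀ i, (0 : Fin (b i) → ℝ) ∈ interior (convexHull ℝ (range (s i))))
    (hc : (0 : Fin a → ℝ) ∈ interior (convexHull ℝ (range c))) :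
    ((a + ∑ i, b i).factorial : ENNReal) * volume (convexHull ℝ (range (pt c s))) =
    (a.factorial : ENNReal) * volume (convexHull ℝ (range c)) *
      ∏ i, (((b i).factorial : ENNReal) * volume (convexHull ℝ (range (s i)))) := by
  obtain ⟨e1, e2⟩ := h1 ι a b c s hs hi hc
  have e3 := h2 ι a b c s hi hc
  have e4 := hX (Fin a ⊕ (Σ i, Fin (b i))) (Gm c s) e2.measurable
    (fun x => by
      unfold Gm
      exact add_nonneg (Finset.sum_nonneg fun i _ => gauge_nonneg _) (gauge_nonneg _))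
    (fun t x ht => by
      have g1 : ∀ i, gauge (convexHull ℝ (range (s i))) (fun j => (t • x) (Sum.inr ⟨i, j⟩)) =
          t * gauge (convexHull ℝ (range (s i))) (fun j => x (Sum.inr ⟨i, j⟩)) := by
        intro i
        exact gauge_smul_of_nonneg (s := convexHull ℝ (range (s i))) ht.le
          (fun j => x (Sum.inr ⟨i, j⟩))
      unfold Gm
      simp only [g1]
      have g2 : (fun j => (t • x) (Sum.inl j) -
          ∑ i, t * gauge (convexHull ℝ (range (s i))) (fun j => x (Sum.inr ⟨i, j⟩)) * c i j) =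
          t • (fun j => x (Sum.inl j) -
          ∑ i, gauge (convexHull ℝ (range (s i))) (fun j => x (Sum.inr ⟨i, j⟩)) * c i j) := by
        ext j
        simp only [Pi.smul_apply, smul_eq_mul, mul_sub, Finset.mul_sum, mul_assoc]
      rw [g2, gauge_smul_of_nonneg ht.le, smul_eq_mul, ← Finset.mul_sum, mul_add])
  rw [← e1, e3] at e4
  have hcard : Fintype.card (Fin a ⊕ (Σ i, Fin (b i))) = a + ∑ i, b i := by
    simp [Fintype.card_sum, Fintype.card_sigma]
  rw [hcard] at e4
  rw [← e4, PkBV.int_gauge hX (range c) (Set.finite_range c) hc]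
  congr 1
  · rw [Fintype.card_fin]
  · refine Finset.prod_congr rfl fun i _ => ?_
    rw [PkBV.int_gauge hX (range (s i)) (Set.finite_range (s i)) (hi i), Fintype.card_fin]

theorem PkBV.thm (hX : G_X) (h1 : G_BV1) (h2 : G_BV2) : G_BV := by
  intro ι _ _ _ a b c s hs hi hc
  obtain ⟨z, hz⟩ := hc
  set c' : ι → Fin a → ℝ := fun i => (-z) + c i with hc'
  have r1 : range c' = (-z) +ᵥ range c := by
    rw [hc']
    ext x
    simp only [mem_range, mem_vadd_set, vadd_eq_add]
    constructor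
    · rintro ⟨i, rfl⟩
      exact ⟨c i, ⟨i, rfl⟩, rfl⟩
    · rintro ⟨y, ⟨i, rfl⟩, rfl⟩
      exact ⟨i, rfl⟩
  have r2 : convexHull ℝ (range c') = (-z) +ᵥ convexHull ℝ (range c) := by
    rw [r1, convexHull_vadd]
  have r3 : volume (convexHull ℝ (range c')) = volume (convexHull ℝ (range c)) := by
    rw [r2, measure_vadd]
  set w : (Fin a ⊕ (Σ i, Fin (b i))) → ℝ := Sum.elim (-z) 0 with hw
  have r4 : ∀ x, pt c' s x = w + pt c s x := by
    intro x
    ext y
    rcases y with y | y
    · simp [pt, hw, hc']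
    · simp [pt, hw, hc']
  have r5 : range (pt c' s) = w +ᵥ range (pt c s) := by
    ext x
    simp only [mem_range, mem_vadd_set, vadd_eq_add]
    constructor
    · rintro ⟨i, rfl⟩
      exact ⟨pt c s i, ⟨i, rfl⟩, (r4 i).symm⟩
    · rintro ⟨y, ⟨i, rfl⟩, rfl⟩
      exact ⟨i, r4 i⟩
  have r6 : volume (convexHull ℝ (range (pt c' s))) = volume (convexHull ℝ (range (pt c s))) := by
    rw [r5, convexHull_vadd, measure_vadd]
  have r7 : (0 : Fin a → ℝ) ∈ interior (convexHull ℝ (range c')) := by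
    rw [r2, interior_vadd]
    exact ⟨z, hz, by simp⟩
  have h := PkBV.main hX h1 h2 ι a b c' s hs hi r7
  rw [r3, r6] at h
  exact h

end Pool.Agent.Helper29.Poly
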