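import Pool.Agent.Helper86.Poly.Goals

set_option autoImplicit false

namespace Pool.Agent.Helper29.Poly

open MeasureTheory Set
open Pool.Agent.Helper86.Poly

theorem PkSTR.thm : G_STR := by
  intro d P w hP hPc hPi hw
  set H := convexHull ℝ (insert w P) with hH
  have hHc : Convex ℝ H := convex_convexHull ℝ _
  have hPH : P ⊆ H := (subset_insert w P).trans (subset_convexHull ℝ _)
  have hwH : w ∈ H := subset_convexHull ℝ _ (mem_insert w P)
  have hHi : (interior H).Nonempty := hPi.mono (interior_mono hPH)
  have hcl : w ∈ closure (interior H) := by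
    rw [hHc.closure_interior_eq_closure_of_nonempty_interior hHi]
    exact subset_closure hwH
  have hopen : IsOpen Pᶜ := hP.isClosed.isOpen_compl
  obtain ⟨y, hy1, hy2⟩ := mem_closure_iff.1 hcl Pᶜ hopen hw
  have hU : IsOpen (Pᶜ ∩ interior H) := hopen.inter isOpen_interior
  have hpos : 0 < volume (Pᶜ ∩ interior H) := hU.measure_pos volume ⟨y, hy1, hy2⟩
  have hdisj : Disjoint P (Pᶜ ∩ interior H) :=
    disjoint_compl_right.mono_right inter_subset_left
  have h1 : volume P + volume (Pᶜ ∩ interior H) ≤ volume H := by
    rw [← measure_union hdisj hU.measurableSet]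
    exact measure_mono (union_subset hPH (inter_subset_right.trans interior_subset))
  exact lt_of_lt_of_le (ENNReal.lt_add_right hP.measure_lt_top.ne hpos.ne') h1

end Pool.Agent.Helper29.Poly
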